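import Pool.Agent.Helper6.ThriftyBlock
import Pool.Agent.Helper6.ThriftyLower

/-!
# The time-space trade-off of nondeterministic thrifty branching programs
-/

namespace Pool.Agent.Helper6.Old.ThriftyTradeOff

open Pool.Agent.Helper6.TreeEval

/-- The branching program obtained from a gadget for the root. -/
def ofGadget {h k : ℕ} (g : Gadget k (Unit × ZMod k) (Unit × ZMod k))
    (ht : ∀ s, (g.query s).InTree h) : NBP h k where
  State := g.S ⊕ Fin k
  start := Sum.inl (g.start ((), 0))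
  label := Sum.elim (fun s => Sum.inl (g.query s)) Sum.inr
  next := fun s v => match s with
    | Sum.inl s => {w | (∃ t, w = Sum.inl t ∧ Sum.inl t ∈ g.step s v) ∨
        ∃ c : Fin k, w = Sum.inr c ∧ Sum.inr ((), ((c : ℕ) : ZMod k)) ∈ g.step s v}
    | Sum.inr _ => ∅
  inTree := by
    rintro (s | s) q hq
    · cases hq
      exact ht s
    · exact absurd hq (by simp)

theorem comp_ofGadget {h k : ℕ} (g : Gadget k (Unit × ZMod k) (Unit × ZMod k))
    (ht : ∀ s, (g.query s).InTree h) (I : Inst k) (l : List (g.S ⊕ Fin k)) (v : Fin k) :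
    (ofGadget g ht).Comp I (ofGadget g ht).start l v ↔
      ∃ l', g.Runs I ((), 0) l' ((), ((v : ℕ) : ZMod k)) ∧
        l = l'.map Sum.inl ++ [Sum.inr v] := by
  have key1 : ∀ (u : (ofGadget g ht).State) (l : List (ofGadget g ht).State) (v : Fin k),
      (ofGadget g ht).Comp I u l v → ∀ s : g.S, u = Sum.inl s →
      ∃ l', g.Path I s l' ((), ((v : ℕ) : ZMod k)) ∧ l = l'.map Sum.inl ++ [Sum.inr v] := by
    intro u l v hc
    induction hc with
    | final hs =>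
      rintro s rfl
      exact absurd hs (by simp [ofGadget])
    | @step u t q l v hs ht' hl ih =>
      rintro s rfl
      have hq : g.query s = q := Sum.inl_injective hs
      subst hq
      rcases ht' with ⟨t', rfl, h2⟩ | ⟨c, rfl, h2⟩
      · obtain ⟨l', hp, rfl⟩ := ih t' rfl
        exact ⟨s :: l', Gadget.Path.cons h2 hp, rfl⟩
      · have key0 : ∀ (u : (ofGadget g ht).State) (l : List (ofGadget g ht).State) (v : Fin k),
            (ofGadget g ht).Comp I u l v → u = Sum.inr c → c = v ∧ l = [Sum.inr v] := by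
          intro u l v hc
          cases hc with
          | final hs' =>
            rintro rfl
            have hcv : c = v := Sum.inr_injective hs'
            subst hcv
            exact ⟨rfl, rfl⟩
          | step hs' _ _ =>
            rintro rfl
            exact absurd hs' (by simp [ofGadget])
        obtain ⟨rfl, rfl⟩ := key0 _ _ _ hl rfl
        exact ⟨[s], Gadget.Path.exit h2, rfl⟩
  have key2 : ∀ (s : g.S) (l' : List g.S) (b : Unit × ZMod k), g.Path I s l' b →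
      ∀ v : Fin k, b = ((), ((v : ℕ) : ZMod k)) →
      (ofGadget g ht).Comp I (Sum.inl s) (l'.map Sum.inl ++ [Sum.inr v]) v := by
    intro s l' b hp
    induction hp with
    | @exit s b hb =>
      rintro v rfl
      exact NBP.Comp.step (B := ofGadget g ht) (s := Sum.inl s) (t := Sum.inr v) rfl
        (Or.inr ⟨v, rfl, hb⟩) (NBP.Comp.final (B := ofGadget g ht) rfl)
    | @cons s t l b ht' _ ih =>
      rintro v rfl
      exact NBP.Comp.step (B := ofGadget g ht) (s := Sum.inl s) (t := Sum.inl t) rfl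
        (Or.inl ⟨t, rfl, ht'⟩) (ih v rfl)
  constructor
  · intro hc
    exact key1 _ _ _ hc _ rfl
  · rintro ⟨l', hp, rfl⟩
    exact key2 _ _ _ hp _ rfl

theorem leafQueries_ofGadget {h k : ℕ} (g : Gadget k (Unit × ZMod k) (Unit × ZMod k))
    (ht : ∀ s, (g.query s).InTree h) (l' : List g.S) (v : Fin k) :
    (ofGadget g ht).leafQueries (l'.map Sum.inl ++ [Sum.inr v]) = g.leafCount l' := by
  let P : g.S ⊕ Fin k → Bool := Sum.elim (fun s => (g.query s).isLeaf) (fun _ => false)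
  have h1 : ∀ L : List (g.S ⊕ Fin k), (ofGadget g ht).leafQueries L = L.countP P := by
    intro L
    refine congrArg (fun f : (g.S ⊕ Fin k) → Bool => List.countP f L) ?_
    funext s
    rcases s with s | s
    · change (match (Sum.inl (g.query s) : Query k ⊕ Fin k) with
        | Sum.inl (Query.leaf _) => true
        | _ => false) = (g.query s).isLeaf
      cases g.query s <;> rfl
    · rfl
  have h2 : List.countP P (l'.map Sum.inl ++ [Sum.inr v]) = g.leafCount l' := by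
    rw [List.countP_append, List.countP_map]
    exact Nat.add_zero _
  exact (h1 _).trans h2

/-- The program obtained from a mask. -/
theorem exists_program (h k m b lam M₀ : ℕ) (hh : 1 ≤ h) (hk : 2 ≤ k) (hlam : 1 ≤ lam)
    (hkM : k ≤ M₀) (hmask : Mask4 k lam M₀) (hb : h ≤ b * m + 1) :
    ∃ B : NBP h k, B.Solves ∧ B.IsThrifty ∧ B.Unambiguous ∧
      (∀ I l v, B.Comp I B.start l v → B.leafQueries l ≤ 2 ^ b * 2 ^ (h - 1)) ∧
      Fintype.card B.State ≤
        2 * (2 ^ ((m + 2) * b) * (k ^ 2 * (lam ^ (2 ^ m * b) * M₀) ^ (2 * m + 1))) := by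
  obtain ⟨n, rfl⟩ : ∃ n, h = n + 1 := ⟨h - 1, by omega⟩
  have : NeZero k := ⟨by omega⟩
  obtain ⟨g, ht, hcard, hcheap, hg⟩ := canAdd (n + 1) k m lam M₀ (by omega) hlam (by omega) hmask
    b n (by omega) M₀ le_rfl [] (by simp; omega) Unit (ZMod k)
    (by
      rw [Fintype.card_unit]
      exact Nat.one_le_pow _ _ (by omega))
    ((ZMod.card k).le.trans hkM) (fun v => ((v : ℕ) : ZMod k))
  have hroot : ∀ I : Inst k, I.nodeVal (n + 1) [] = I.val n [] := by
    intro I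
    unfold Inst.nodeVal
    simp
  have hinj : ∀ v w : Fin k, ((v : ℕ) : ZMod k) = ((w : ℕ) : ZMod k) → v = w := by
    intro v w hvw
    rw [ZMod.natCast_eq_natCast_iff', Nat.mod_eq_of_lt v.2, Nat.mod_eq_of_lt w.2] at hvw
    exact Fin.ext hvw
  have hall : ∀ (I : Inst k), ∃ l, ((ofGadget g ht).Comp I (ofGadget g ht).start l
      (I.nodeVal (n + 1) [])) ∧ (∀ s ∈ l, ∀ q, (ofGadget g ht).label s = Sum.inl q →
        q.Thrifty (n + 1) I) ∧ ∀ l' v, (ofGadget g ht).Comp I (ofGadget g ht).start l' v →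
        l' = l ∧ v = I.nodeVal (n + 1) [] := by
    intro I
    obtain ⟨l, hl, hth, hu⟩ := hg I () 0
    rw [zero_add] at hl
    refine ⟨l.map Sum.inl ++ [Sum.inr (I.nodeVal (n + 1) [])], ?_, ?_, ?_⟩
    · refine (comp_ofGadget g ht I _ _).2 ⟨l, ?_, rfl⟩
      rw [hroot]
      exact hl
    · intro s hs q hq
      rcases List.mem_append.1 hs with h1 | h1
      · obtain ⟨s1, hs1, rfl⟩ := List.mem_map.1 h1
        have hq' : g.query s1 = q := Sum.inl_injective hq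
        rw [← hq']
        exact hth s1 hs1
      · have h2 := List.mem_singleton.1 h1
        subst h2
        exact absurd hq (by simp [ofGadget])
    · intro l' v hv
      obtain ⟨l1, h1, rfl⟩ := (comp_ofGadget g ht I l' v).1 hv
      obtain ⟨rfl, h2⟩ := hu l1 _ h1
      simp only [Prod.mk.injEq, true_and, zero_add] at h2
      have h3 := hinj _ _ h2
      rw [hroot]
      subst h3
      exact ⟨rfl, rfl⟩
  refine ⟨ofGadget g ht, ?_, ?_, ?_, ?_, ?_⟩
  · intro I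
    obtain ⟨l, h1, _, h3⟩ := hall I
    exact ⟨⟨l, h1⟩, fun l' v hv => (h3 l' v hv).2⟩
  · intro I l v hl
    obtain ⟨l', h1, h2, h3⟩ := hall I
    obtain ⟨rfl, -⟩ := h3 l v hl
    exact h2
  · intro I l l' v v' hl hl'
    obtain ⟨l0, h1, h2, h3⟩ := hall I
    rw [(h3 l v hl).1, (h3 l' v' hl').1]
  · intro I l v hl
    obtain ⟨l1, h1, rfl⟩ := (comp_ofGadget g ht I l v).1 hl
    refine (leafQueries_ofGadget g ht l1 v).le.trans ?_
    simpa using hcheap _ _ _ _ h1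
  · have hcS : Fintype.card (ofGadget g ht).State = Fintype.card g.S + k := by
      change Fintype.card (g.S ⊕ Fin k) = _
      simp only [Fintype.card_sum, Fintype.card_fin]
    rw [hcS]
    have h2 : k ≤ 2 ^ ((m + 2) * b) * (k ^ 2 * (lam ^ (2 ^ m * b) * M₀) ^ (2 * m + 1)) := by
      have h3 : 1 ≤ (lam ^ (2 ^ m * b) * M₀) ^ (2 * m + 1) :=
        Nat.one_le_pow _ _ (Nat.mul_pos (Nat.one_le_pow _ _ hlam) (by omega))
      calc k = 1 * (k ^ 1 * 1) := by ring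
        _ ≤ 2 ^ ((m + 2) * b) * (k ^ 2 * (lam ^ (2 ^ m * b) * M₀) ^ (2 * m + 1)) := by
          gcongr
          · exact Nat.one_le_two_pow
          · omega
          · norm_num
    omega

/-- The upper bound, with an arbitrarily small loss in the exponent. -/
theorem upper (h m b : ℕ) (ε : ℝ) (hh : 1 ≤ h) (hb : h ≤ b * m + 1) (hε : 0 < ε) :
    ∃ C : ℝ, ∀ k : ℕ, 2 ≤ k → ∃ B : NBP h k, B.Solves ∧ B.IsThrifty ∧ B.Unambiguous ∧
      (∀ I l v, B.Comp I B.start l v → B.leafQueries l ≤ 2 ^ b * 2 ^ (h - 1)) ∧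
      (Fintype.card B.State : ℝ) ≤ C * (k : ℝ) ^ (2 * (m : ℝ) + 3 + ε) := by
  -- the dimension
  obtain ⟨W, hW⟩ : ∃ W, W = 2 ^ m * b := ⟨_, rfl⟩
  let d : ℕ := ⌈2 * (W : ℝ) * (2 * m + 1) / ε⌉₊ + 1
  have hd1 : 1 ≤ d := Nat.succ_pos _
  have hd0 : (0 : ℝ) < d := by exact_mod_cast hd1
  have hdle : 2 * (W : ℝ) * (2 * m + 1) / ε ≤ d := by
    have h1 := Nat.le_ceil (2 * (W : ℝ) * (2 * m + 1) / ε)
    have h2 : ((⌈2 * (W : ℝ) * (2 * m + 1) / ε⌉₊ : ℕ) : ℝ) ≤ d := Nat.cast_le.2 (Nat.le_succ _)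
    exact h1.trans h2
  refine ⟨2 * 2 ^ ((m + 2) * b) * ((168 * (d : ℝ) ^ 3) ^ W * (2 * (d : ℝ)) ^ d) ^ (2 * m + 1),
    ?_⟩
  intro k hk
  have hk0 : (0 : ℝ) < k := by positivity
  have hk1 : (1 : ℝ) ≤ k := by exact_mod_cast (by omega : 1 ≤ k)
  set κ : ℝ := (k : ℝ) ^ (1 / (d : ℝ)) with hκ
  have hκ1 : 1 ≤ κ := Real.one_le_rpow hk1 (by positivity)
  have hκd : κ ^ d = k := by
    rw [hκ, ← Real.rpow_natCast, ← Real.rpow_mul hk0.le]
    rw [one_div, inv_mul_cancel₀ hd0.ne', Real.rpow_one]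
  let q : ℕ := ⌈κ⌉₊
  have hκq : κ ≤ q := Nat.le_ceil _
  have hq1 : 1 ≤ q := Nat.one_le_ceil_iff.2 (by linarith)
  have hq2 : (q : ℝ) ≤ 2 * κ := by
    have := Nat.ceil_lt_add_one (show (0 : ℝ) ≤ κ by linarith)
    linarith
  have hkq : k ≤ q ^ d := by
    have : (k : ℝ) ≤ (q : ℝ) ^ d := by
      rw [← hκd]
      exact pow_le_pow_left₀ (by linarith) hκq d
    exact_mod_cast this
  have hkM : k ≤ (d * q) ^ d := hkq.trans (Nat.pow_le_pow_left (Nat.le_mul_of_pos_left _ hd1) _)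
  obtain ⟨B, hB1, hB2, hB3, hB4, hB5⟩ := exists_program h k m b (42 * d ^ 3 * q ^ 2)
    ((d * q) ^ d) hh hk (Nat.succ_le_of_lt (by positivity)) hkM (mask4_vector k d q hd1 hq1 hkq) hb
  refine ⟨B, hB1, hB2, hB3, hB4, ?_⟩
  rw [← hW] at hB5
  have hcast : (Fintype.card B.State : ℝ) ≤ 2 * (2 ^ ((m + 2) * b) *
      ((k : ℝ) ^ 2 * ((42 * (d : ℝ) ^ 3 * (q : ℝ) ^ 2) ^ W * ((d : ℝ) * q) ^ d) ^ (2 * m + 1))) := by
    exact_mod_cast hB5
  have hκW : κ ^ (2 * W * (2 * m + 1)) ≤ (k : ℝ) ^ ε := by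
    rw [hκ, ← Real.rpow_natCast, ← Real.rpow_mul hk0.le]
    apply Real.rpow_le_rpow_of_exponent_le hk1
    push_cast
    rw [one_div, inv_mul_le_iff₀ hd0]
    rw [div_le_iff₀ hε] at hdle
    exact hdle
  have h1 : (42 * (d : ℝ) ^ 3 * (q : ℝ) ^ 2) ^ W * ((d : ℝ) * q) ^ d ≤
      ((168 * (d : ℝ) ^ 3) ^ W * (2 * (d : ℝ)) ^ d) * (κ ^ (2 * W) * k) := by
    calc (42 * (d : ℝ) ^ 3 * (q : ℝ) ^ 2) ^ W * ((d : ℝ) * q) ^ d
        ≤ (42 * (d : ℝ) ^ 3 * (2 * κ) ^ 2) ^ W * ((d : ℝ) * (2 * κ)) ^ d := by gcongr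
      _ = ((168 * (d : ℝ) ^ 3) ^ W * (2 * (d : ℝ)) ^ d) * (κ ^ (2 * W) * κ ^ d) := by
          have e1 : 42 * (d : ℝ) ^ 3 * (2 * κ) ^ 2 = (168 * (d : ℝ) ^ 3) * κ ^ 2 := by ring
          have e2 : (d : ℝ) * (2 * κ) = 2 * (d : ℝ) * κ := by ring
          rw [e1, e2, mul_pow, mul_pow (2 * (d : ℝ)), ← pow_mul]
          ring
      _ = _ := by rw [hκd]
  calc (Fintype.card B.State : ℝ) ≤ 2 * (2 ^ ((m + 2) * b) *
      ((k : ℝ) ^ 2 * ((42 * (d : ℝ) ^ 3 * (q : ℝ) ^ 2) ^ W * ((d : ℝ) * q) ^ d) ^ (2 * m + 1))) :=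
        hcast
    _ ≤ 2 * (2 ^ ((m + 2) * b) * ((k : ℝ) ^ 2 *
        (((168 * (d : ℝ) ^ 3) ^ W * (2 * (d : ℝ)) ^ d) * (κ ^ (2 * W) * k)) ^ (2 * m + 1))) := by
        gcongr
    _ = 2 * 2 ^ ((m + 2) * b) * ((168 * (d : ℝ) ^ 3) ^ W * (2 * (d : ℝ)) ^ d) ^ (2 * m + 1) *
        (κ ^ (2 * W * (2 * m + 1)) * (k : ℝ) ^ (2 * m + 3)) := by
        rw [mul_pow ((168 * (d : ℝ) ^ 3) ^ W * (2 * (d : ℝ)) ^ d), mul_pow (κ ^ (2 * W)),
          ← pow_mul κ]
        ring
    _ ≤ 2 * 2 ^ ((m + 2) * b) * ((168 * (d : ℝ) ^ 3) ^ W * (2 * (d : ℝ)) ^ d) ^ (2 * m + 1) *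
        ((k : ℝ) ^ ε * (k : ℝ) ^ (2 * m + 3)) := by gcongr
    _ = _ := by
        congr 1
        rw [← Real.rpow_natCast, ← Real.rpow_add hk0]
        congr 1
        push_cast
        ring

/-- **Main theorem.** The time-space trade-off of nondeterministic thrifty branching programs for
the tree evaluation problem with `h` levels. If `h - 1 ≤ b m` then `C k ^ (2 m + 3 + ε)`
states suffice for unambiguous programs with at most `2 ^ b * 2 ^ (h - 1)` leaf queries on each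
computation (there are `2 ^ (h - 1)` leaves). Conversely, if `r * 2 ^ (h - 1)` leaf queries suffice
on each instance, then the number of states is at least `(k ^ ρ / C(2 ^ h - 1, ρ)) ^ (1 / 2)` for
every `ρ ≥ 1` with `(2 r) ^ (6 ρ - 3) < 2 ^ (h - 1)`. -/
theorem result (h : ℕ) (hh : 1 ≤ h) :
    (∀ b m : ℕ, h ≤ b * m + 1 → ∀ ε : ℝ, 0 < ε → ∃ C : ℝ, ∀ k : ℕ, 2 ≤ k →
      ∃ B : NBP h k, B.Solves ∧ B.IsThrifty ∧ B.Unambiguous ∧
        (∀ I l v, B.Comp I B.start l v → B.leafQueries l ≤ 2 ^ b * 2 ^ (h - 1)) ∧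
        (Fintype.card B.State : ℝ) ≤ C * (k : ℝ) ^ (2 * (m : ℝ) + 3 + ε)) ∧
    ∀ k : ℕ, 2 ≤ k → ∀ B : NBP h k, B.Solves → B.IsThrifty → ∀ r : ℝ,
      (∀ I : Inst k, ∃ l, B.Comp I B.start l (I.nodeVal h []) ∧
        (B.leafQueries l : ℝ) ≤ r * 2 ^ (h - 1)) →
      ∀ ρ : ℕ, 1 ≤ ρ → (2 * r) ^ (6 * ρ - 3) < 2 ^ (h - 1) →
        k ^ ρ ≤ (2 ^ h - 1).choose ρ * Fintype.card B.State ^ 2 :=
  ⟨fun b m hb ε hε => upper h m b ε hh hb hε,
    fun k hk B hB ht r hr ρ hρ hlow => Lower.time_space h k ρ r hh hk hρ B hB ht hr hlow⟩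

end Pool.Agent.Helper6.Old.ThriftyTradeOff
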